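import Pool.Agent.Lib.MP_81bbc5_al.Balls
import Pool.Agent.Lib.MP_81bbc5_al.Amalg

/-!
Problem `MP_81bbc5_al`, Q1, answered in the affirmative: a connected component of the graph of
finitely generated groups (edges `G ⟶ H` for `G ⪯ H`) that contains a virtually nilpotent group
is directed under `⪯`.

Outline of the proof. Write `G^e` for the subgroup generated by `e`-th powers. For a finitely
generated virtually nilpotent group `G` and suitable `e`, the subgroup `N = G^e` is torsion-free
nilpotent of finite index. To a tuple `x` of elements of `G` one attaches the group `U(x)` of words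
modulo those that vanish on the whole coset `x N`. Using polynomial sequences in nilpotent groups
(every sequence in the group generated by constants and powers is killed by iterated differences)
one shows that generating tuples are dense enough in the coset for `G ⪯ U(x, 1, ..., 1)`; Nielsen
moves show that `U(x, 1, ..., 1)` does not depend on the generating tuple `x`; and `U` does not
change when `G` is replaced by a limit `H` of markings of `G`. Hence any two groups above `G` have
a common upper bound, and a zigzag argument finishes the proof.
-/

set_option autoImplicit false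

namespace Pool.Agent.Results.MP_81bbc5_al.ComponentsDirected

open Pool.Agent.MP81bbc5

/-- A finitely generated group. -/
structure FGGroup where
  /-- The underlying type. -/
  carrier : Type
  /-- The group structure. -/
  [group : Group carrier]
  /-- Finite generation. -/
  [fg : Group.FG carrier]

attribute [instance] FGGroup.group FGGroup.fg

/-- The relation `G ⪯ H` on finitely generated groups. -/
def Below (G H : FGGroup) : Prop := Prec G.carrier H.carrier

/-- `C` is a connected component of the undirected graph underlying `⪯`: the class of some group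
for the equivalence relation generated by `⪯`. -/
def IsComponent (C : Set FGGroup) : Prop := ∃ G : FGGroup, C = {H | Relation.EqvGen Below G H}

/-- Every finite subset of `C` has an upper bound in `C`. -/
def IsDirectedSet (C : Set FGGroup) : Prop :=
  ∀ F : Set FGGroup, F.Finite → F ⊆ C → ∃ U ∈ C, ∀ G ∈ F, Below G U

theorem below_iff {G H : FGGroup} : Below G H ↔ Preceq G.carrier H.carrier := prec_iff_preceq

theorem below_refl (G : FGGroup) : Below G G := below_iff.mpr Preceq.refl

theorem below_trans {G H L : FGGroup} (h1 : Below G H) (h2 : Below H L) : Below G L :=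
  below_iff.mpr ((below_iff.mp h1).trans (below_iff.mp h2))

theorem vn_iff {A B : FGGroup} (h : Relation.EqvGen Below A B) :
    Group.IsVirtuallyNilpotent A.carrier ↔ Group.IsVirtuallyNilpotent B.carrier := by
  induction h with
  | rel x y h => exact ⟨fun hx => vn_up hx (below_iff.mp h), fun hy => vn_down hy (below_iff.mp h)⟩
  | refl x => exact Iff.rfl
  | symm x y _ ih => exact ih.symm
  | trans x y z _ _ ih1 ih2 => exact ih1.trans ih2

theorem amalgamate {G H₁ H₂ : FGGroup} (hG : Group.IsVirtuallyNilpotent G.carrier)
    (h1 : Below G H₁) (h2 : Below G H₂) : ∃ U : FGGroup, Below H₁ U ∧ Below H₂ U := by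
  obtain ⟨U, hU, hfg, p1, p2⟩ := amalg hG (below_iff.mp h1) (below_iff.mp h2)
  exact ⟨⟨U⟩, below_iff.mpr p1, below_iff.mpr p2⟩

theorem pair {A B : FGGroup} (h : Relation.EqvGen Below A B)
    (hA : Group.IsVirtuallyNilpotent A.carrier) : ∃ U : FGGroup, Below A U ∧ Below B U := by
  induction h with
  | rel x y h => exact ⟨y, h, below_refl y⟩
  | refl x => exact ⟨x, below_refl x, below_refl x⟩
  | symm x y h ih =>
    obtain ⟨U, h1, h2⟩ := ih ((vn_iff h).mpr hA)
    exact ⟨U, h2, h1⟩
  | trans x y z h1 h2 ih1 ih2 =>
    obtain ⟨U, hxU, hyU⟩ := ih1 hA
    have hy := (vn_iff h1).mp hA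
    obtain ⟨V, hyV, hzV⟩ := ih2 hy
    obtain ⟨W, hUW, hVW⟩ := amalgamate hy hyU hyV
    exact ⟨W, below_trans hxU hUW, below_trans hzV hVW⟩

/-- Every connected component containing a virtually nilpotent group is directed. -/
theorem result (C : Set FGGroup) (hC : IsComponent C)
    (hvn : ∃ G ∈ C, Group.IsVirtuallyNilpotent G.carrier) : IsDirectedSet C := by
  obtain ⟨G0, rfl⟩ := hC
  obtain ⟨V, hV, hVvn⟩ := hvn
  have hG0 : Group.IsVirtuallyNilpotent G0.carrier := (vn_iff hV).mpr hVvn
  intro F hF
  induction F, hF using Set.Finite.induction_on with
  | empty => intro _; exact ⟨V, hV, fun G hG => absurd hG (Set.notMem_empty G)⟩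
  | @insert a s _ _ ih =>
    intro hsub
    obtain ⟨U, hU, hUs⟩ := ih ((Set.subset_insert a s).trans hsub)
    have ha : Relation.EqvGen Below G0 a := hsub (Set.mem_insert a s)
    have hUa : Relation.EqvGen Below U a := (hU.symm).trans _ _ _ ha
    obtain ⟨W, hUW, haW⟩ := pair hUa ((vn_iff hU).mp hG0)
    refine ⟨W, Relation.EqvGen.trans _ _ _ hU (Relation.EqvGen.rel _ _ hUW), ?_⟩
    intro G hG
    rcases Set.mem_insert_iff.mp hG with rfl | hG
    · exact haW
    · exact below_trans (hUs G hG) hUW

end Pool.Agent.Results.MP_81bbc5_al.ComponentsDirected
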